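import Pool.Agent.QSN.StmtsD

/-!
# Squad QSN, row SLG: embeddings of `SL_n (𝔻)` from a representation of `𝔻`
-/

set_option autoImplicit false

namespace Pool.Agent.QSN.H80

open Matrix Finset Pool.Agent.QSX
open Pool.Agent.QSX.H10 (rd rd_cst cstL cst_inj)

section slg

variable {k k' r n m : ℕ}

/-- the map of the block matrices -/
def slR (ρ : Matrix (Fin k) (Fin k) ℝ →ₗ[ℝ]
      Matrix (Fin r) (Fin r) (Matrix (Fin k') (Fin k') ℝ)) (g : Fin m → Fin n × Fin r) :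
    Matrix (Fin n) (Fin n) (Matrix (Fin k) (Fin k) ℝ) →ₗ[ℝ]
      Matrix (Fin m) (Fin m) (Matrix (Fin k') (Fin k') ℝ) where
  toFun x := fun s s' => ρ (x (g s).1 (g s').1) (g s).2 (g s').2
  map_add' x y := by
    ext s s' : 2
    rw [Matrix.add_apply, map_add]
    rfl
  map_smul' c x := by
    ext s s' : 2
    rw [Matrix.smul_apply, map_smul]
    rfl

theorem slR_apply (ρ : Matrix (Fin k) (Fin k) ℝ →ₗ[ℝ]
      Matrix (Fin r) (Fin r) (Matrix (Fin k') (Fin k') ℝ)) (g : Fin m → Fin n × Fin r)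
    (x : Matrix (Fin n) (Fin n) (Matrix (Fin k) (Fin k) ℝ)) (s s' : Fin m) :
    slR ρ g x s s' = ρ (x (g s).1 (g s').1) (g s).2 (g s').2 := rfl

/-- the map of the diagonals -/
noncomputable def slA (g : Fin m → Fin n × Fin r) : (Fin n → ℝ) →ₗ[ℝ] (Fin m → ℝ) where
  toFun a := fun s => a (g s).1 - (1 / (m : ℝ)) * ∑ s', a (g s').1
  map_add' a b := by
    funext s
    simp only [Pi.add_apply]
    rw [Finset.sum_add_distrib]
    ring
  map_smul' c a := by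
    funext s
    simp only [Pi.smul_apply, smul_eq_mul, RingHom.id_apply]
    rw [← Finset.mul_sum]
    ring

theorem slA_apply (g : Fin m → Fin n × Fin r) (a : Fin n → ℝ) (s : Fin m) :
    slA g a s = a (g s).1 - (1 / (m : ℝ)) * ∑ s', a (g s').1 := rfl

theorem slA_sum (g : Fin m → Fin n × Fin r) (a : Fin n → ℝ) : ∑ s, slA g a s = 0 := by
  simp only [slA_apply]
  rw [Finset.sum_sub_distrib, Finset.sum_const, Finset.card_univ, Fintype.card_fin, nsmul_eq_mul]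
  rcases Nat.eq_zero_or_pos m with h | h
  · subst h
    simp
  · have h1 : (m : ℝ) ≠ 0 := by positivity
    field_simp
    ring

theorem slA_inj (g : Fin m → Fin n × Fin r) (hg : ∀ i, ∃ s, (g s).1 = i) (a b : Fin n → ℝ)
    (ha : ∑ i, a i = 0) (hb : ∑ i, b i = 0) (h : slA g a = slA g b) : a = b := by
  have h1 : slA g (a - b) = 0 := by rw [map_sub, h, sub_self]
  have h2 : ∀ i, (a - b) i = (1 / (m : ℝ)) * ∑ s', (a - b) (g s').1 := by
    intro i
    obtain ⟨s, rfl⟩ := hg i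
    have h3 := congrFun h1 s
    rw [slA_apply, Pi.zero_apply] at h3
    linarith
  have h3 : ∑ i, (a - b) i = 0 := by
    simp only [Pi.sub_apply]
    rw [Finset.sum_sub_distrib, ha, hb, sub_zero]
  rw [Finset.sum_congr rfl (fun i _ => h2 i), Finset.sum_const, Finset.card_univ,
    Fintype.card_fin, nsmul_eq_mul] at h3
  funext i
  have h4 : (n : ℝ) ≠ 0 := by
    have : 0 < n := i.pos
    positivity
  have h5 := (mul_eq_zero.1 h3).resolve_left h4
  have h6 := h2 i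
  rw [h5, Pi.sub_apply] at h6
  linarith

theorem slg_ext (𝔻 : Subalgebra ℝ (Matrix (Fin k) (Fin k) ℝ))
    (𝔻' : Subalgebra ℝ (Matrix (Fin k') (Fin k') ℝ)) (ρ : 𝔻 →ₐ[ℝ] Matrix (Fin r) (Fin r) 𝔻') :
    ∃ ρ' : Matrix (Fin k) (Fin k) ℝ →ₗ[ℝ] Matrix (Fin r) (Fin r) (Matrix (Fin k') (Fin k') ℝ),
      ∀ (x : 𝔻) (c c' : Fin r), ρ' (x : Matrix (Fin k) (Fin k) ℝ) c c' =
        ((ρ x c c' : 𝔻') : Matrix (Fin k') (Fin k') ℝ) := by
  let f : (Subalgebra.toSubmodule 𝔻) →ₗ[ℝ] Matrix (Fin r) (Fin r) (Matrix (Fin k') (Fin k') ℝ) :=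
    { toFun := fun x => fun c c' => ((ρ x c c' : 𝔻') : Matrix (Fin k') (Fin k') ℝ)
      map_add' := by
        intro x y
        refine Matrix.ext fun c c' => ?_
        change ((ρ (x + y) c c' : 𝔻') : Matrix (Fin k') (Fin k') ℝ) =
          ((ρ x c c' : 𝔻') : Matrix (Fin k') (Fin k') ℝ) + ((ρ y c c' : 𝔻') : Matrix (Fin k') (Fin k') ℝ)
        have h := map_add ρ x y
        rw [h]
        rfl
      map_smul' := by
        intro a x
        refine Matrix.ext fun c c' => ?_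
        change ((ρ (a • x) c c' : 𝔻') : Matrix (Fin k') (Fin k') ℝ) =
          a • ((ρ x c c' : 𝔻') : Matrix (Fin k') (Fin k') ℝ)
        have h := map_smul ρ a x
        rw [h]
        rfl }
  obtain ⟨ρ', h⟩ := LinearMap.exists_extend f
  refine ⟨ρ', fun x c c' => ?_⟩
  have h1 := LinearMap.congr_fun h x
  exact congrFun (congrFun h1 c) c'

theorem dia_entry (c : Fin n → ℝ) (x : Matrix (Fin n) (Fin n) (Matrix (Fin k) (Fin k) ℝ))
    (i j : Fin n) : (dia k c * x - x * dia k c) i j = (c i - c j) • x i j := by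
  rw [Matrix.sub_apply, dia, Matrix.diagonal_mul, Matrix.mul_diagonal, Matrix.smul_mul,
    Matrix.mul_smul, Matrix.one_mul, Matrix.mul_one, sub_smul]

variable {𝔻 : Subalgebra ℝ (Matrix (Fin k) (Fin k) ℝ)}
  {𝔻' : Subalgebra ℝ (Matrix (Fin k') (Fin k') ℝ)} {ρ : 𝔻 →ₐ[ℝ] Matrix (Fin r) (Fin r) 𝔻'}
  {ρ' : Matrix (Fin k) (Fin k) ℝ →ₗ[ℝ] Matrix (Fin r) (Fin r) (Matrix (Fin k') (Fin k') ℝ)}
  {g : Fin m → Fin n × Fin r}

theorem slR_UD (hρ : ∀ (x : 𝔻) (c c' : Fin r), ρ' (x : Matrix (Fin k) (Fin k) ℝ) c c' =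
        ((ρ x c c' : 𝔻') : Matrix (Fin k') (Fin k') ℝ))
    (hg : ∀ s s', s ≤ s' → (g s).1 ≤ (g s').1)
    {x : Matrix (Fin n) (Fin n) (Matrix (Fin k) (Fin k) ℝ)} (hx : x ∈ UD n 𝔻) :
    slR ρ' g x ∈ UD m 𝔻' := by
  refine ⟨fun s s' => ?_, fun s s' h => ?_⟩
  · rw [slR_apply]
    have h1 := hρ ⟨x (g s).1 (g s').1, hx.1 _ _⟩ (g s).2 (g s').2
    change ρ' (x (g s).1 (g s').1) (g s).2 (g s').2 = _ at h1
    rw [h1]
    exact SetLike.coe_mem _
  · rw [slR_apply, hx.2 _ _ (hg s' s h), map_zero]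
    rfl

theorem slR_inj (hρ : ∀ (x : 𝔻) (c c' : Fin r), ρ' (x : Matrix (Fin k) (Fin k) ℝ) c c' =
        ((ρ x c c' : 𝔻') : Matrix (Fin k') (Fin k') ℝ))
    (h0 : ∀ i j, i < j → ∀ x : 𝔻, (∀ s s', (g s).1 = i → (g s').1 = j →
      ρ x (g s).2 (g s').2 = 0) → x = 0)
    {x : Matrix (Fin n) (Fin n) (Matrix (Fin k) (Fin k) ℝ)} (hx : x ∈ UD n 𝔻)
    (h : slR ρ' g x = 0) : x = 0 := by
  refine Matrix.ext fun i j => ?_
  rcases lt_or_ge i j with hij | hij
  · have h1 : (⟨x i j, hx.1 i j⟩ : 𝔻) = 0 := by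
      refine h0 i j hij _ fun s s' hs hs' => ?_
      have h2 := congrFun (congrFun h s) s'
      rw [slR_apply, hs, hs'] at h2
      have h3 := hρ ⟨x i j, hx.1 i j⟩ (g s).2 (g s').2
      change ρ' (x i j) (g s).2 (g s').2 = _ at h3
      rw [h3] at h2
      exact Subtype.ext h2
    exact congrArg Subtype.val h1
  · rw [hx.2 i j hij]
    rfl

theorem slR_mul (hρ : ∀ (x : 𝔻) (c c' : Fin r), ρ' (x : Matrix (Fin k) (Fin k) ℝ) c c' =
        ((ρ x c c' : 𝔻') : Matrix (Fin k') (Fin k') ℝ))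
    (hinj : Function.Injective g)
    (hmid : ∀ (i j l : Fin n) (c : Fin r), i < j → j < l → ∃ s, g s = (j, c))
    {x y : Matrix (Fin n) (Fin n) (Matrix (Fin k) (Fin k) ℝ)} (hx : x ∈ UD n 𝔻)
    (hy : y ∈ UD n 𝔻) : slR ρ' g (x * y) = slR ρ' g x * slR ρ' g y := by
  classical
  refine Matrix.ext fun s s'' => ?_
  have hmul : ∀ (a b : Matrix (Fin k) (Fin k) ℝ), a ∈ 𝔻 → b ∈ 𝔻 → ∀ c c'' : Fin r,
      ρ' (a * b) c c'' = ∑ c', ρ' a c c' * ρ' b c' c'' := by
    intro a b ha hb c c''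
    have h1 := hρ (⟨a, ha⟩ * ⟨b, hb⟩) c c''
    change ρ' (a * b) c c'' = _ at h1
    rw [h1, map_mul, Matrix.mul_apply]
    have h2 : ∀ c', ρ' a c c' * ρ' b c' c'' =
        (((ρ ⟨a, ha⟩ c c' * ρ ⟨b, hb⟩ c' c'' : 𝔻')) : Matrix (Fin k') (Fin k') ℝ) := by
      intro c'
      have e1 := hρ ⟨a, ha⟩ c c'
      have e2 := hρ ⟨b, hb⟩ c' c''
      change ρ' a c c' = _ at e1
      change ρ' b c' c'' = _ at e2
      rw [e1, e2]
      rfl
    rw [Finset.sum_congr rfl (fun c' _ => h2 c')]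
    exact map_sum 𝔻'.val _ _
  have hL : slR ρ' g (x * y) s s'' = ∑ p : Fin n × Fin r,
      ρ' (x (g s).1 p.1) (g s).2 p.2 * ρ' (y p.1 (g s'').1) p.2 (g s'').2 := by
    rw [slR_apply, Matrix.mul_apply, map_sum, Fintype.sum_prod_type]
    rw [Matrix.sum_apply]
    refine Finset.sum_congr rfl fun j _ => ?_
    exact hmul _ _ (hx.1 _ _) (hy.1 _ _) _ _
  rw [hL, Matrix.mul_apply]
  have hR : ∑ s', slR ρ' g x s s' * slR ρ' g y s' s'' =
      ∑ p ∈ Finset.univ.image g,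
        ρ' (x (g s).1 p.1) (g s).2 p.2 * ρ' (y p.1 (g s'').1) p.2 (g s'').2 := by
    rw [Finset.sum_image (fun a _ b _ h => hinj h)]
    rfl
  rw [hR]
  symm
  refine Finset.sum_subset (Finset.subset_univ _) fun p _ hp => ?_
  by_cases h1 : (g s).1 < p.1
  · by_cases h2 : p.1 < (g s'').1
    · exfalso
      apply hp
      obtain ⟨t, ht⟩ := hmid (g s).1 p.1 (g s'').1 p.2 h1 h2
      exact Finset.mem_image.2 ⟨t, Finset.mem_univ _, ht⟩
    · rw [hy.2 _ _ (not_lt.1 h2), map_zero]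
      exact mul_zero _
  · rw [hx.2 _ _ (not_lt.1 h1), map_zero]
    exact zero_mul _

theorem slR_dia (c : Fin n → ℝ) (x : Matrix (Fin n) (Fin n) (Matrix (Fin k) (Fin k) ℝ)) :
    slR ρ' g (dia k c * x - x * dia k c) =
      dia k' (slA g c) * slR ρ' g x - slR ρ' g x * dia k' (slA g c) := by
  refine Matrix.ext fun s s' => ?_
  rw [dia_entry, slR_apply, dia_entry, map_smul, slR_apply, slA_apply, slA_apply]
  change (c (g s).1 - c (g s').1) • (ρ' (x (g s).1 (g s').1) (g s).2 (g s').2) = _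
  congr 1
  ring

end slg

/-- **SLG**. -/
theorem slg : SlgStmt := by
  intro k k' r n m hk hk' 𝔻 𝔻' ρ g hinj hmono hmid hall h0
  obtain ⟨ρ', hρ⟩ := slg_ext 𝔻 𝔻' ρ
  have hs : ∀ x : Matrix (Fin n) (Fin n) (Matrix (Fin k) (Fin k) ℝ),
      (blk k n).symm (blk k n x) = x := fun x => (blk k n).symm_apply_apply x
  refine ⟨(blk k' m).toLinearMap.comp ((slR ρ' g).comp
    ((blk k n).symm.toLinearMap.comp (datD n 𝔻).n.subtype)),
    (cstL k' m).comp ((slA g).comp ((rd hk).comp (datD n 𝔻).b.subtype)),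
    ?_, ?_, ?_, ?_, ?_, ?_⟩
  · rintro ⟨_, x, hx, rfl⟩
    refine ⟨slR ρ' g x, slR_UD hρ hmono hx, ?_⟩
    change blk k' m (slR ρ' g ((blk k n).symm (blk k n x))) = _
    rw [hs]
  · rintro ⟨_, c, hc, rfl⟩
    refine ⟨slA g c, slA_sum g c, ?_⟩
    change cst k' m (slA g (rd hk (cst k n c))) = _
    rw [rd_cst]
  · rintro ⟨_, x, hx, rfl⟩ ⟨_, y, hy, rfl⟩ h
    have h1 : slR ρ' g ((blk k n).symm (blk k n x)) = slR ρ' g ((blk k n).symm (blk k n y)) :=
      (blk k' m).injective h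
    rw [hs, hs] at h1
    have h2 : x - y = 0 := by
      refine slR_inj hρ h0 ((UD n 𝔻).sub_mem hx hy) ?_
      rw [map_sub, h1, sub_self]
    rw [Subtype.mk.injEq, sub_eq_zero.1 h2]
  · rintro ⟨_, c, hc, rfl⟩ ⟨_, c', hc', rfl⟩ h
    have h1 : slA g (rd hk (cst k n c)) = slA g (rd hk (cst k n c')) := cst_inj hk' h
    rw [rd_cst, rd_cst] at h1
    rw [Subtype.mk.injEq, slA_inj g hall c c' hc hc' h1]
  · rintro ⟨_, x, hx, rfl⟩ ⟨_, y, hy, rfl⟩
    change blk k' m (slR ρ' g ((blk k n).symm (blk k n x * blk k n y - blk k n y * blk k n x))) =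
      blk k' m (slR ρ' g ((blk k n).symm (blk k n x))) *
        blk k' m (slR ρ' g ((blk k n).symm (blk k n y))) -
      blk k' m (slR ρ' g ((blk k n).symm (blk k n y))) *
        blk k' m (slR ρ' g ((blk k n).symm (blk k n x)))
    rw [← map_mul, ← map_mul, ← map_sub, hs, hs, hs, map_sub, slR_mul hρ hinj hmid hx hy,
      slR_mul hρ hinj hmid hy hx, map_sub, map_mul, map_mul]
  · rintro ⟨_, c, hc, rfl⟩ ⟨_, x, hx, rfl⟩
    change blk k' m (slR ρ' g ((blk k n).symm (diagonal (cst k n c) * blk k n x -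
        blk k n x * diagonal (cst k n c)))) =
      diagonal (cst k' m (slA g (rd hk (cst k n c)))) *
        blk k' m (slR ρ' g ((blk k n).symm (blk k n x))) -
      blk k' m (slR ρ' g ((blk k n).symm (blk k n x))) *
        diagonal (cst k' m (slA g (rd hk (cst k n c))))
    rw [rd_cst, ← blk_dia, ← blk_dia, ← map_mul, ← map_mul, ← map_sub, hs, hs, ← map_mul,
      ← map_mul, ← map_sub, ← slR_dia]

end Pool.Agent.QSN.H80
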