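import Pool.Agent.QSN.StmtsE
import Pool.Agent.Helper24_QSX.PRS

/-!
# Squad QSN, row PRM: products of data of type MS are of type MS
-/

set_option autoImplicit false

namespace Pool.Agent.QSN.H80

open Matrix Finset Pool.Agent.QSX Pool.Agent.QSN
open Pool.Agent.QSX.H24P (p1 p2 ap p1_ap p2_ap coe_eq ap_p iL iR iL_apply iR_apply iL_ker iR_ker
  uL uR ue_l ue_r comm_lr comm_rl)

variable {X Y : Dat}

/-- the root vectors of the product -/
def ee (hX : MS X) (hY : MS Y) :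
    hX.ι ⊕ hY.ι → Matrix (Fin (X.m + Y.m)) (Fin (X.m + Y.m)) ℝ :=
  Sum.elim (iL X.m Y.m ∘ hX.e) (iR X.m Y.m ∘ hY.e)

theorem ee_inl (hX : MS X) (hY : MS Y) (l : hX.ι) :
    ee hX hY (Sum.inl l) = bd (hX.e l) 0 := rfl

theorem ee_inr (hX : MS X) (hY : MS Y) (l : hY.ι) :
    ee hX hY (Sum.inr l) = bd 0 (hY.e l) := rfl

theorem e_mem (hX : MS X) (l : hX.ι) : hX.e l ∈ X.n := by
  rw [← hX.span_e]; exact Submodule.subset_span ⟨l, rfl⟩

theorem e_su (hX : MS X) (l : hX.ι) : SU (hX.e l) := X.su _ (e_mem hX l)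

theorem span_ee (hX : MS X) (hY : MS Y) :
    Submodule.span ℝ (Set.range (ee hX hY)) = (X.prod Y).n := by
  rw [ee, Set.Sum.elim_range, Submodule.span_union, Set.range_comp, Set.range_comp,
    Submodule.span_image, Submodule.span_image, hX.span_e, hY.span_e]
  apply le_antisymm
  · refine sup_le ?_ ?_
    · rintro _ ⟨x, hx, rfl⟩
      exact ⟨x, hx, 0, Y.n.zero_mem, rfl⟩
    · rintro _ ⟨y, hy, rfl⟩
      exact ⟨0, X.n.zero_mem, y, hy, rfl⟩
  · rintro _ ⟨x, hx, y, hy, rfl⟩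
    have : bd x y = iL X.m Y.m x + iR X.m Y.m y := by
      rw [iL_apply, iR_apply, bd_add, add_zero, zero_add]
    rw [this]
    exact Submodule.add_mem_sup ⟨x, hx, rfl⟩ ⟨y, hy, rfl⟩

theorem lin_ee (hX : MS X) (hY : MS Y) : LinearIndependent ℝ (ee hX hY) := by
  refine LinearIndependent.sum_type (hX.lin.map' _ (iL_ker _ _)) (hY.lin.map' _ (iR_ker _ _)) ?_
  rw [Submodule.disjoint_def]
  intro z h1 h2
  have h3 : z ∈ LinearMap.range (iL X.m Y.m) := by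
    refine Submodule.span_le.2 ?_ h1
    rintro _ ⟨l, rfl⟩
    exact ⟨_, rfl⟩
  have h4 : z ∈ LinearMap.range (iR X.m Y.m) := by
    refine Submodule.span_le.2 ?_ h2
    rintro _ ⟨l, rfl⟩
    exact ⟨_, rfl⟩
  obtain ⟨x, hx⟩ := h3
  obtain ⟨y, hy⟩ := h4
  have h5 : bd x 0 = bd (0 : Matrix (Fin X.m) (Fin X.m) ℝ) y := by
    rw [← iL_apply, ← iR_apply, hx, hy]
  rw [← hx, iL_apply, (bd_inj h5).1, bd_zero]

/-- the roots of the product -/
def rr (hX : MS X) (hY : MS Y) : hX.ι ⊕ hY.ι → (X.prod Y).b →ₗ[ℝ] ℝ :=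
  Sum.elim (fun l => hX.rt l ∘ₗ p1 X Y) (fun l => hY.rt l ∘ₗ p2 X Y)

theorem rr_inl (hX : MS X) (hY : MS Y) (l : hX.ι) (c : (X.prod Y).b) :
    rr hX hY (Sum.inl l) c = hX.rt l (p1 X Y c) := rfl

theorem rr_inr (hX : MS X) (hY : MS Y) (l : hY.ι) (c : (X.prod Y).b) :
    rr hX hY (Sum.inr l) c = hY.rt l (p2 X Y c) := rfl

/-- the lists of the product -/
def LL (hX : MS X) (hY : MS Y) : hX.ι ⊕ hY.ι → hX.ι ⊕ hY.ι →
    List ((hX.ι ⊕ hY.ι) × ℕ × ℕ × ℚ)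
  | Sum.inl l, Sum.inl l' => (hX.L l l').map fun t => (Sum.inl t.1, t.2)
  | Sum.inr l, Sum.inr l' => (hY.L l l').map fun t => (Sum.inr t.1, t.2)
  | Sum.inl _, Sum.inr _ => []
  | Sum.inr _, Sum.inl _ => []

theorem rr_inl_eq (hX : MS X) (hY : MS Y) {l l' : hX.ι} (h : hX.rt l = hX.rt l') :
    rr hX hY (Sum.inl l) = rr hX hY (Sum.inl l') := by
  change hX.rt l ∘ₗ p1 X Y = hX.rt l' ∘ₗ p1 X Y
  rw [h]

theorem rr_inr_eq (hX : MS X) (hY : MS Y) {l l' : hY.ι} (h : hY.rt l = hY.rt l') :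
    rr hX hY (Sum.inr l) = rr hX hY (Sum.inr l') := by
  change hY.rt l ∘ₗ p2 X Y = hY.rt l' ∘ₗ p2 X Y
  rw [h]

theorem rr_inl_inj (hX : MS X) (hY : MS Y) {l l' : hX.ι}
    (h : rr hX hY (Sum.inl l) = rr hX hY (Sum.inl l')) : hX.rt l = hX.rt l' := by
  ext a
  have := congrArg (fun f => f (ap X Y (a, 0))) h
  change hX.rt l (p1 X Y (ap X Y (a, 0))) = hX.rt l' (p1 X Y (ap X Y (a, 0))) at this
  rwa [p1_ap] at this

theorem rr_inr_inj (hX : MS X) (hY : MS Y) {l l' : hY.ι}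
    (h : rr hX hY (Sum.inr l) = rr hX hY (Sum.inr l')) : hY.rt l = hY.rt l' := by
  ext a
  have := congrArg (fun f => f (ap X Y (0, a))) h
  change hY.rt l (p2 X Y (ap X Y (0, a))) = hY.rt l' (p2 X Y (ap X Y (0, a))) at this
  rwa [p2_ap] at this

theorem rr_lr (hX : MS X) (hY : MS Y) (l : hX.ι) (l' : hY.ι) :
    rr hX hY (Sum.inl l) ≠ rr hX hY (Sum.inr l') := by
  intro h
  obtain ⟨a, ha⟩ := hX.pos
  have := congrArg (fun f => f (ap X Y (a, 0))) h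
  change hX.rt l (p1 X Y (ap X Y (a, 0))) = hY.rt l' (p2 X Y (ap X Y (a, 0))) at this
  rw [p1_ap, p2_ap, map_zero] at this
  exact absurd this (ha l).ne'

theorem ee_inl_iL (hX : MS X) (hY : MS Y) (l : hX.ι) :
    ee hX hY (Sum.inl l) = iL X.m Y.m (hX.e l) := rfl

theorem ee_inr_iR (hX : MS X) (hY : MS Y) (l : hY.ι) :
    ee hX hY (Sum.inr l) = iR X.m Y.m (hY.e l) := rfl

theorem iL_mul {m m' : ℕ} (x y : Matrix (Fin m) (Fin m) ℝ) :
    iL m m' (x * y) = iL m m' x * iL m m' y := by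
  rw [iL_apply, iL_apply, iL_apply, bd_mul, mul_zero]

theorem iR_mul {m m' : ℕ} (x y : Matrix (Fin m') (Fin m') ℝ) :
    iR m m' (x * y) = iR m m' x * iR m m' y := by
  rw [iR_apply, iR_apply, iR_apply, bd_mul, mul_zero]

theorem gen_rr (hX : MS X) (hY : MS Y) (l l' : hX.ι ⊕ hY.ι) (hl : rr hX hY l ≠ rr hX hY l') :
    ∀ t ∈ LL hX hY l l', ∀ t', rr hX hY t' = rr hX hY t.1 →
      ∃ W : List ((hX.ι ⊕ hY.ι) × (hX.ι ⊕ hY.ι) × ℚ),
      (∀ w ∈ W, rr hX hY w.1 ≠ rr hX hY w.2.1 ∧ rr hX hY w.1 + rr hX hY w.2.1 = rr hX hY t') ∧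
      ee hX hY t' = (W.map fun w => (w.2.2 : ℝ) •
        (ee hX hY w.1 * ee hX hY w.2.1 - ee hX hY w.2.1 * ee hX hY w.1)).sum := by
  rcases l with l | l <;> rcases l' with l' | l' <;> intro t ht t' ht'
  · obtain ⟨s, hs, rfl⟩ := List.mem_map.1 ht
    rcases t' with t' | t'
    · obtain ⟨W, hW1, hW2⟩ := hX.gen l l' (fun e => hl (rr_inl_eq hX hY e)) s hs t'
        (rr_inl_inj hX hY ht')
      refine ⟨W.map fun w => (Sum.inl w.1, Sum.inl w.2.1, w.2.2), ?_, ?_⟩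
      · intro w hw
        obtain ⟨v, hv, rfl⟩ := List.mem_map.1 hw
        obtain ⟨h1, h2⟩ := hW1 v hv
        refine ⟨fun h => h1 (rr_inl_inj hX hY h), ?_⟩
        change hX.rt v.1 ∘ₗ p1 X Y + hX.rt v.2.1 ∘ₗ p1 X Y = hX.rt t' ∘ₗ p1 X Y
        rw [← LinearMap.add_comp, h2]
      · rw [ee_inl_iL, hW2, map_list_sum, List.map_map, List.map_map]
        refine congrArg List.sum (List.map_congr_left fun w _ => ?_)
        change iL X.m Y.m ((w.2.2 : ℝ) • (hX.e w.1 * hX.e w.2.1 - hX.e w.2.1 * hX.e w.1)) =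
          (w.2.2 : ℝ) • (iL X.m Y.m (hX.e w.1) * iL X.m Y.m (hX.e w.2.1) -
            iL X.m Y.m (hX.e w.2.1) * iL X.m Y.m (hX.e w.1))
        rw [map_smul, map_sub, iL_mul, iL_mul]
    · exact absurd ht'.symm (rr_lr hX hY s.1 t')
  · exact absurd ht List.not_mem_nil
  · exact absurd ht List.not_mem_nil
  · obtain ⟨s, hs, rfl⟩ := List.mem_map.1 ht
    rcases t' with t' | t'
    · exact absurd ht' (rr_lr hX hY t' s.1)
    · obtain ⟨W, hW1, hW2⟩ := hY.gen l l' (fun e => hl (rr_inr_eq hX hY e)) s hs t'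
        (rr_inr_inj hX hY ht')
      refine ⟨W.map fun w => (Sum.inr w.1, Sum.inr w.2.1, w.2.2), ?_, ?_⟩
      · intro w hw
        obtain ⟨v, hv, rfl⟩ := List.mem_map.1 hw
        obtain ⟨h1, h2⟩ := hW1 v hv
        refine ⟨fun h => h1 (rr_inr_inj hX hY h), ?_⟩
        change hY.rt v.1 ∘ₗ p2 X Y + hY.rt v.2.1 ∘ₗ p2 X Y = hY.rt t' ∘ₗ p2 X Y
        rw [← LinearMap.add_comp, h2]
      · rw [ee_inr_iR, hW2, map_list_sum, List.map_map, List.map_map]
        refine congrArg List.sum (List.map_congr_left fun w _ => ?_)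
        change iR X.m Y.m ((w.2.2 : ℝ) • (hY.e w.1 * hY.e w.2.1 - hY.e w.2.1 * hY.e w.1)) =
          (w.2.2 : ℝ) • (iR X.m Y.m (hY.e w.1) * iR X.m Y.m (hY.e w.2.1) -
            iR X.m Y.m (hY.e w.2.1) * iR X.m Y.m (hY.e w.1))
        rw [map_smul, map_sub, iR_mul, iR_mul]

theorem comp_rt_rr (hX : MS X) (hY : MS Y) (l l' : hX.ι ⊕ hY.ι)
    (h : rr hX hY l = rr hX hY l') :
    Sum.map hX.comp hY.comp l = Sum.map hX.comp hY.comp l' := by
  rcases l with l | l <;> rcases l' with l' | l'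
  · exact congrArg Sum.inl (hX.comp_rt l l' (rr_inl_inj hX hY h))
  · exact absurd h (rr_lr hX hY l l')
  · exact absurd h.symm (rr_lr hX hY l' l)
  · exact congrArg Sum.inr (hY.comp_rt l l' (rr_inr_inj hX hY h))

theorem climb_rr (hX : MS X) (hY : MS Y) (l : hX.ι ⊕ hY.ι)
    (hl : rr hX hY l ≠ rr hX hY (Sum.map hX.top hY.top (Sum.map hX.comp hY.comp l)))
    (x : Matrix (Fin (X.m + Y.m)) (Fin (X.m + Y.m)) ℝ)
    (hx : x ∈ Submodule.span ℝ (ee hX hY '' {l' | rr hX hY l' = rr hX hY l}))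
    (h : ∀ k, rr hX hY k ≠ rr hX hY l → x * ee hX hY k - ee hX hY k * x = 0) : x = 0 := by
  rcases l with l | l
  · have h1 : ee hX hY '' {l' | rr hX hY l' = rr hX hY (Sum.inl l)} ⊆
        iL X.m Y.m '' (hX.e '' {l' | hX.rt l' = hX.rt l}) := by
      rintro _ ⟨l', hl', rfl⟩
      rcases l' with l' | l'
      · exact ⟨hX.e l', ⟨l', rr_inl_inj hX hY hl', rfl⟩, rfl⟩
      · exact absurd (Eq.symm hl') (rr_lr hX hY l l')
    have h2 := Submodule.span_mono h1 hx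
    rw [Submodule.span_image] at h2
    obtain ⟨x0, hx0, rfl⟩ := h2
    have h3 : x0 = 0 := by
      refine hX.climb l (fun e => hl (rr_inl_eq hX hY e)) x0 hx0 fun k hk => ?_
      have h4 := h (Sum.inl k) (fun e => hk (rr_inl_inj hX hY e))
      rw [ee_inl_iL, ← iL_mul, ← iL_mul, ← map_sub] at h4
      exact (LinearMap.ker_eq_bot.1 (iL_ker X.m Y.m)) (h4.trans (map_zero _).symm)
    rw [h3, map_zero]
  · have h1 : ee hX hY '' {l' | rr hX hY l' = rr hX hY (Sum.inr l)} ⊆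
        iR X.m Y.m '' (hY.e '' {l' | hY.rt l' = hY.rt l}) := by
      rintro _ ⟨l', hl', rfl⟩
      rcases l' with l' | l'
      · exact absurd hl' (rr_lr hX hY l' l)
      · exact ⟨hY.e l', ⟨l', rr_inr_inj hX hY hl', rfl⟩, rfl⟩
    have h2 := Submodule.span_mono h1 hx
    rw [Submodule.span_image] at h2
    obtain ⟨x0, hx0, rfl⟩ := h2
    have h3 : x0 = 0 := by
      refine hY.climb l (fun e => hl (rr_inr_eq hX hY e)) x0 hx0 fun k hk => ?_
      have h4 := h (Sum.inr k) (fun e => hk (rr_inr_inj hX hY e))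
      rw [ee_inr_iR, ← iR_mul, ← iR_mul, ← map_sub] at h4
      exact (LinearMap.ker_eq_bot.1 (iR_ker X.m Y.m)) (h4.trans (map_zero _).symm)
    rw [h3, map_zero]

theorem rank1_rr (hX : MS X) (hY : MS Y) (l : hX.ι ⊕ hY.ι)
    (h : ∀ l', Sum.map hX.comp hY.comp l' = Sum.map hX.comp hY.comp l →
      rr hX hY l' = rr hX hY l) (l' : hX.ι ⊕ hY.ι)
    (hl' : Sum.map hX.comp hY.comp l' = Sum.map hX.comp hY.comp l) : l' = l := by
  rcases l with l | l <;> rcases l' with l' | l'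
  · exact congrArg Sum.inl (hX.rank1 l
      (fun k hk => rr_inl_inj hX hY (h (Sum.inl k) (congrArg Sum.inl hk))) l'
      (Sum.inl_injective hl'))
  · exact absurd hl' Sum.inr_ne_inl
  · exact absurd hl' Sum.inl_ne_inr
  · exact congrArg Sum.inr (hY.rank1 l
      (fun k hk => rr_inr_inj hX hY (h (Sum.inr k) (congrArg Sum.inr hk))) l'
      (Sum.inr_injective hl'))

theorem com_ee (h : EbdStmt) (hX : MS X) (hY : MS Y) (l l' : hX.ι ⊕ hY.ι)
    (hl : rr hX hY l ≠ rr hX hY l')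
    (x y : ℝ) :
    ue (x • ee hX hY l) * ue (y • ee hX hY l') * (ue (x • ee hX hY l))⁻¹ *
      (ue (y • ee hX hY l'))⁻¹ =
    ((LL hX hY l l').map fun t =>
      ue (((t.2.2.2 : ℝ) * x ^ t.2.1 * y ^ t.2.2.1) • ee hX hY t.1)).prod := by
  rcases l with l | l <;> rcases l' with l' | l'
  · rw [ee_inl, ee_inl, ue_l h x (e_su hX l), ue_l h y (e_su hX l'), ← map_inv, ← map_inv,
      ← map_mul, ← map_mul, ← map_mul, hX.com l l' (fun e => hl (rr_inl_eq hX hY e)) x y, map_list_prod,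
      List.map_map]
    change _ = (((hX.L l l').map fun t => ((Sum.inl t.1 : hX.ι ⊕ hY.ι), t.2)).map fun t =>
      ue (((t.2.2.2 : ℝ) * x ^ t.2.1 * y ^ t.2.2.1) • ee hX hY t.1)).prod
    rw [List.map_map]
    refine congrArg List.prod (List.map_congr_left fun t _ => ?_)
    change uL X.m Y.m (ue (((t.2.2.2 : ℝ) * x ^ t.2.1 * y ^ t.2.2.1) • hX.e t.1)) =
      ue (((t.2.2.2 : ℝ) * x ^ t.2.1 * y ^ t.2.2.1) • ee hX hY (Sum.inl t.1))
    rw [ee_inl, ue_l h _ (e_su hX t.1)]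
  · rw [ee_inl, ee_inr, ue_l h x (e_su hX l), ue_r h y (e_su hY l'), comm_lr]
    rfl
  · rw [ee_inl, ee_inr, ue_r h x (e_su hY l), ue_l h y (e_su hX l'), comm_rl]
    rfl
  · rw [ee_inr, ee_inr, ue_r h x (e_su hY l), ue_r h y (e_su hY l'), ← map_inv, ← map_inv,
      ← map_mul, ← map_mul, ← map_mul, hY.com l l' (fun e => hl (rr_inr_eq hX hY e)) x y, map_list_prod,
      List.map_map]
    change _ = (((hY.L l l').map fun t => ((Sum.inr t.1 : hX.ι ⊕ hY.ι), t.2)).map fun t =>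
      ue (((t.2.2.2 : ℝ) * x ^ t.2.1 * y ^ t.2.2.1) • ee hX hY t.1)).prod
    rw [List.map_map]
    refine congrArg List.prod (List.map_congr_left fun t _ => ?_)
    change uR X.m Y.m (ue (((t.2.2.2 : ℝ) * x ^ t.2.1 * y ^ t.2.2.1) • hY.e t.1)) =
      ue (((t.2.2.2 : ℝ) * x ^ t.2.1 * y ^ t.2.2.1) • ee hX hY (Sum.inr t.1))
    rw [ee_inr, ue_r h _ (e_su hY t.1)]

theorem wt_ee (hX : MS X) (hY : MS Y) (l : hX.ι ⊕ hY.ι) (c : (X.prod Y).b) :
    (diagonal (c : Fin (X.prod Y).m → ℝ) : Matrix (Fin (X.m + Y.m)) (Fin (X.m + Y.m)) ℝ) *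
      ee hX hY l - ee hX hY l *
      (diagonal (c : Fin (X.prod Y).m → ℝ) : Matrix (Fin (X.m + Y.m)) (Fin (X.m + Y.m)) ℝ) =
      rr hX hY l c • ee hX hY l := by
  have hc : (diagonal (c : Fin (X.prod Y).m → ℝ) :
      Matrix (Fin (X.m + Y.m)) (Fin (X.m + Y.m)) ℝ) =
      bd (diagonal (p1 X Y c : Fin X.m → ℝ)) (diagonal (p2 X Y c : Fin Y.m → ℝ)) := by
    rw [bd_diagonal]; exact congrArg diagonal (coe_eq c)
  rw [hc]
  rcases l with l | l
  · rw [ee_inl, rr_inl, bd_mul, bd_mul, bd_sub, bd_smul, hX.wt l, mul_zero, zero_mul, sub_zero,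
      smul_zero]
  · rw [ee_inr, rr_inr, bd_mul, bd_mul, bd_sub, bd_smul, hY.wt l, mul_zero, zero_mul, sub_zero,
      smul_zero]

theorem nonprop_rr (hX : MS X) (hY : MS Y) (l l' : hX.ι ⊕ hY.ι)
    (hl : rr hX hY l ≠ rr hX hY l') (c : ℝ) :
    rr hX hY l ≠ c • rr hX hY l' := by
  intro h
  rcases l with l | l <;> rcases l' with l' | l'
  · refine hX.nonprop l l' (fun e => hl (rr_inl_eq hX hY e)) c ?_
    ext a
    have := congrArg (fun f => f (ap X Y (a, 0))) h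
    change hX.rt l (p1 X Y (ap X Y (a, 0))) = c • hX.rt l' (p1 X Y (ap X Y (a, 0))) at this
    rwa [p1_ap] at this
  · obtain ⟨a, ha⟩ := hX.pos
    have := congrArg (fun f => f (ap X Y (a, 0))) h
    change hX.rt l (p1 X Y (ap X Y (a, 0))) = c • hY.rt l' (p2 X Y (ap X Y (a, 0))) at this
    rw [p1_ap, p2_ap, map_zero, smul_zero] at this
    exact absurd this (ha l).ne'
  · obtain ⟨a, ha⟩ := hY.pos
    have := congrArg (fun f => f (ap X Y (0, a))) h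
    change hY.rt l (p2 X Y (ap X Y (0, a))) = c • hX.rt l' (p1 X Y (ap X Y (0, a))) at this
    rw [p1_ap, p2_ap, map_zero, smul_zero] at this
    exact absurd this (ha l).ne'
  · refine hY.nonprop l l' (fun e => hl (rr_inr_eq hX hY e)) c ?_
    ext a
    have := congrArg (fun f => f (ap X Y (0, a))) h
    change hY.rt l (p2 X Y (ap X Y (0, a))) = c • hY.rt l' (p2 X Y (ap X Y (0, a))) at this
    rwa [p2_ap] at this

theorem L_rt_rr (hX : MS X) (hY : MS Y) (l l' : hX.ι ⊕ hY.ι) :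
    ∀ t ∈ LL hX hY l l', 1 ≤ t.2.1 ∧ 1 ≤ t.2.2.1 ∧
      rr hX hY t.1 = (t.2.1 : ℝ) • rr hX hY l + (t.2.2.1 : ℝ) • rr hX hY l' := by
  rcases l with l | l <;> rcases l' with l' | l' <;> intro t ht
  · obtain ⟨s, hs, rfl⟩ := List.mem_map.1 ht
    obtain ⟨h1, h2, h3⟩ := hX.L_rt l l' s hs
    refine ⟨h1, h2, ?_⟩
    ext a
    exact congrArg (fun f => f (p1 X Y a)) h3
  · exact absurd ht List.not_mem_nil
  · exact absurd ht List.not_mem_nil
  · obtain ⟨s, hs, rfl⟩ := List.mem_map.1 ht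
    obtain ⟨h1, h2, h3⟩ := hY.L_rt l l' s hs
    refine ⟨h1, h2, ?_⟩
    ext a
    exact congrArg (fun f => f (p2 X Y a)) h3

theorem L_nodup_rr (hX : MS X) (hY : MS Y) (l l' : hX.ι ⊕ hY.ι) :
    ((LL hX hY l l').map fun t => t.1).Nodup := by
  rcases l with l | l <;> rcases l' with l' | l'
  · change (((hX.L l l').map fun t => ((Sum.inl t.1 : hX.ι ⊕ hY.ι), t.2)).map fun t => t.1).Nodup
    rw [List.map_map]
    have : ((hX.L l l').map fun t => t.1).map (Sum.inl : hX.ι → hX.ι ⊕ hY.ι) =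
        (hX.L l l').map ((fun t => t.1) ∘ fun t => ((Sum.inl t.1 : hX.ι ⊕ hY.ι), t.2)) := by
      rw [List.map_map]; rfl
    rw [← this]
    exact (hX.L_nodup l l').map Sum.inl_injective
  · exact List.nodup_nil
  · exact List.nodup_nil
  · change (((hY.L l l').map fun t => ((Sum.inr t.1 : hX.ι ⊕ hY.ι), t.2)).map fun t => t.1).Nodup
    rw [List.map_map]
    have : ((hY.L l l').map fun t => t.1).map (Sum.inr : hY.ι → hX.ι ⊕ hY.ι) =
        (hY.L l l').map ((fun t => t.1) ∘ fun t => ((Sum.inr t.1 : hX.ι ⊕ hY.ι), t.2)) := by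
      rw [List.map_map]; rfl
    rw [← this]
    exact (hY.L_nodup l l').map Sum.inr_injective

theorem L_comp_rr (hX : MS X) (hY : MS Y) (l l' : hX.ι ⊕ hY.ι) :
    ∀ t ∈ LL hX hY l l', Sum.map hX.comp hY.comp t.1 = Sum.map hX.comp hY.comp l ∧
      Sum.map hX.comp hY.comp t.1 = Sum.map hX.comp hY.comp l' := by
  rcases l with l | l <;> rcases l' with l' | l' <;> intro t ht
  · obtain ⟨s, hs, rfl⟩ := List.mem_map.1 ht
    obtain ⟨h1, h2⟩ := hX.L_comp l l' s hs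
    exact ⟨congrArg Sum.inl h1, congrArg Sum.inl h2⟩
  · exact absurd ht List.not_mem_nil
  · exact absurd ht List.not_mem_nil
  · obtain ⟨s, hs, rfl⟩ := List.mem_map.1 ht
    obtain ⟨h1, h2⟩ := hY.L_comp l l' s hs
    exact ⟨congrArg Sum.inr h1, congrArg Sum.inr h2⟩

theorem scal_rr (hX : MS X) (hY : MS Y) (κ : hX.J ⊕ hY.J → ℝ) (hκ : ∀ j, 0 < κ j) :
    ∃ S : (X.prod Y).b →ₗ[ℝ] (X.prod Y).b, ∀ l a,
      rr hX hY l (S a) = κ (Sum.map hX.comp hY.comp l) * rr hX hY l a := by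
  obtain ⟨S1, h1⟩ := hX.scal (fun j => κ (Sum.inl j)) (fun j => hκ _)
  obtain ⟨S2, h2⟩ := hY.scal (fun j => κ (Sum.inr j)) (fun j => hκ _)
  refine ⟨ap X Y ∘ₗ (S1.prodMap S2) ∘ₗ ((p1 X Y).prod (p2 X Y)), fun l a => ?_⟩
  rcases l with l | l
  · change hX.rt l (p1 X Y (ap X Y (S1 (p1 X Y a), S2 (p2 X Y a)))) =
      κ (Sum.inl (hX.comp l)) * hX.rt l (p1 X Y a)
    rw [p1_ap, h1]
  · change hY.rt l (p2 X Y (ap X Y (S1 (p1 X Y a), S2 (p2 X Y a)))) =
      κ (Sum.inr (hY.comp l)) * hY.rt l (p2 X Y a)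
    rw [p2_ap, h2]

theorem sep_rr (hX : MS X) (hY : MS Y) (a : (X.prod Y).b) (h : ∀ l, rr hX hY l a = 0) :
    a = 0 := by
  have h1 : p1 X Y a = 0 := hX.sep _ fun l => h (Sum.inl l)
  have h2 : p2 X Y a = 0 := hY.sep _ fun l => h (Sum.inr l)
  rw [← ap_p a, h1, h2]
  exact map_zero _

theorem pos_rr (hX : MS X) (hY : MS Y) : ∃ a : (X.prod Y).b, ∀ l, 0 < rr hX hY l a := by
  obtain ⟨a, ha⟩ := hX.pos
  obtain ⟨b, hb⟩ := hY.pos
  refine ⟨ap X Y (a, b), fun l => ?_⟩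
  rcases l with l | l
  · rw [rr_inl, p1_ap]; exact ha l
  · rw [rr_inr, p2_ap]; exact hb l

theorem comp_top_rr (hX : MS X) (hY : MS Y) (l : hX.ι ⊕ hY.ι) :
    Sum.map hX.comp hY.comp (Sum.map hX.top hY.top (Sum.map hX.comp hY.comp l)) =
      Sum.map hX.comp hY.comp l := by
  rcases l with l | l
  · exact congrArg Sum.inl (hX.comp_top l)
  · exact congrArg Sum.inr (hY.comp_top l)

/-- the product of two data of type MS -/
noncomputable def pms (h : EbdStmt) (hX : MS X) (hY : MS Y) : MS (X.prod Y) where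
  ι := hX.ι ⊕ hY.ι
  fin := @instFintypeSum _ _ hX.fin hY.fin
  dec := @instDecidableEqSum _ _ hX.dec hY.dec
  e := ee hX hY
  span_e := span_ee hX hY
  lin := lin_ee hX hY
  rt := rr hX hY
  wt := wt_ee hX hY
  pos := pos_rr hX hY
  sep := sep_rr hX hY
  nonprop := nonprop_rr hX hY
  L := LL hX hY
  L_rt := L_rt_rr hX hY
  L_nodup := L_nodup_rr hX hY
  com := com_ee h hX hY
  gen := gen_rr hX hY
  J := hX.J ⊕ hY.J
  comp := Sum.map hX.comp hY.comp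
  top := Sum.map hX.top hY.top
  comp_top := comp_top_rr hX hY
  comp_rt := comp_rt_rr hX hY
  L_comp := L_comp_rr hX hY
  climb := climb_rr hX hY
  rank1 := rank1_rr hX hY
  scal := scal_rr hX hY

/-- **PRM**. -/
theorem prm (h1 : EbdStmt) : PrmStmt := by
  rintro X Y ⟨hX⟩ ⟨hY⟩
  exact ⟨pms h1 hX hY⟩

end Pool.Agent.QSN.H80
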